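import Mathlib

namespace Pool.Agent.Results.MP_653f52_an.LogGrowth

open Filter Topology Set Real Matrix Asymptotics
open scoped Matrix.Norms.Operator

/-- the product `A (k-1) ⋯ A 0` -/
def prod {d : ℕ} (A : ℕ → Matrix (Fin d) (Fin d) ℝ) : ℕ → Matrix (Fin d) (Fin d) ℝ
  | 0 => 1
  | k + 1 => A k * prod A k

noncomputable def mat (t : ℝ) : Matrix (Fin 2) (Fin 2) ℝ := !![1 - t, negMulLog t; 0, 1]

lemma step {t a : ℝ} (h0 : 0 ≤ t) (h1 : t ≤ 1) (ha : 1 ≤ a) :
    (1 - t) * log a + negMulLog t ≤ log (a + 1) := by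
  rcases h0.eq_or_lt with rfl | h
  · simpa using log_le_log (by linarith) (by linarith)
  have := strictConcaveOn_log_Ioi.concaveOn.2 (mem_Ioi.2 (by linarith : 0 < a))
    (mem_Ioi.2 (inv_pos.2 h)) (sub_nonneg.2 h1) h0 (by ring)
  simp only [smul_eq_mul, log_inv, mul_inv_cancel₀ h.ne'] at this
  have h2 : log ((1 - t) * a + 1) ≤ log (a + 1) := log_le_log (by nlinarith) (by nlinarith)
  rw [negMulLog]
  linarith

lemma form {A : ℕ → Matrix (Fin 2) (Fin 2) ℝ} (hA : ∀ j, A j ∈ mat '' Icc 0 1) (k : ℕ) :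
    ∃ a b : ℝ, 0 ≤ a ∧ a ≤ 1 ∧ 0 ≤ b ∧ b ≤ log (k + 1) ∧ prod A k = !![a, b; 0, 1] := by
  induction k with
  | zero => exact ⟨1, 0, by simp, by simp, by simp, by simp, one_fin_two⟩
  | succ k ih =>
    obtain ⟨a, b, h1, h2, h3, h4, h5⟩ := ih
    obtain ⟨t, ⟨t0, t1⟩, ht⟩ := hA k
    have := negMulLog_nonneg t0 t1
    refine ⟨(1 - t) * a, (1 - t) * b + negMulLog t, by nlinarith, by nlinarith, by nlinarith, ?_, ?_⟩
    · push_cast
      nlinarith [step t0 t1 (a := k + 1) (by simp)]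
    · rw [prod, h5, ← ht, mat, mul_fin_two]
      simp

lemma nrm {A : ℕ → Matrix (Fin 2) (Fin 2) ℝ} (hA : ∀ j, A j ∈ mat '' Icc 0 1) (k : ℕ) :
    1 ≤ ‖prod A k‖ ∧ ‖prod A k‖ ≤ 1 + log (k + 1) := by
  obtain ⟨a, b, h1, h2, h3, h4, h5⟩ := form hA k
  rw [h5, linfty_opNorm_def]
  lift a to NNReal using h1
  lift b to NNReal using h3
  have : (Finset.univ : Finset (Fin 2)) = {0, 1} := rfl
  simp only [this, Finset.sup_insert, Finset.sup_singleton]
  simp
  constructor <;> linarith [b.2]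

lemma lg {α : ℝ} (hα : 0 < α) : (fun k : ℕ => 1 + log (k + 1)) =O[atTop] fun k : ℕ => (k : ℝ) ^ α := by
  have h1 : (fun k : ℕ => log k) =O[atTop] fun k : ℕ => (k : ℝ) ^ α :=
    ((isLittleO_log_rpow_atTop hα).comp_tendsto tendsto_natCast_atTop_atTop).isBigO
  refine IsBigO.trans (IsBigO.of_bound 3 ?_) h1
  filter_upwards [eventually_ge_atTop 3] with k hk
  have h2 : (3 : ℝ) ≤ k := by exact_mod_cast hk
  have h3 : 1 ≤ log k := by
    rw [le_log_iff_exp_le (by linarith)]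
    linarith [exp_one_lt_d9]
  have h4 : log (k + 1) ≤ log (k ^ 2) := log_le_log (by linarith) (by nlinarith)
  rw [log_pow] at h4
  rw [norm_of_nonneg (by linarith [log_nonneg (by linarith : (1 : ℝ) ≤ k + 1)]),
    norm_of_nonneg (by linarith)]
  push_cast at h4
  linarith

theorem result : ∃ (d : ℕ) (S : Set (Matrix (Fin d) (Fin d) ℝ)), 1 ≤ d ∧ S.Nonempty ∧ IsCompact S ∧
    Tendsto (fun k : ℕ => sSup {r | ∃ A : ℕ → Matrix (Fin d) (Fin d) ℝ, (∀ j, A j ∈ S) ∧
      r = ‖prod A k‖} ^ (1 / k : ℝ)) atTop (𝓝 1) ∧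
    (∃ (A : ℕ → Matrix (Fin d) (Fin d) ℝ) (x : Fin d → ℝ), (∀ j, A j ∈ S) ∧
      ¬ ∃ C, ∀ k, ‖prod A k *ᵥ x‖ ≤ C) ∧
    ∀ (A : ℕ → Matrix (Fin d) (Fin d) ℝ) (x : Fin d → ℝ), (∀ j, A j ∈ S) → ∀ α : ℝ, 0 < α →
      (fun k : ℕ => ‖prod A k *ᵥ x‖) =O[atTop] fun k : ℕ => (k : ℝ) ^ α := by
  have h0 : ∀ _ : ℕ, mat 0 ∈ mat '' Icc 0 1 := fun _ => ⟨0, by simp, rfl⟩
  refine ⟨2, mat '' Icc 0 1, one_le_two, ⟨_, h0 0⟩, isCompact_Icc.image ?_, ?_,
    ⟨fun j => mat (1 / (j + 1)), ![0, 1], fun j => ⟨_, ⟨by positivity, ?_⟩, rfl⟩, ?_⟩,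
    fun A x hA α hα => ?_⟩
  · refine continuous_matrix fun i j => ?_
    fin_cases i <;> fin_cases j <;> simp [mat] <;> fun_prop
  · have h1 : Tendsto (fun k : ℕ => ((k : ℝ) + 1) ^ (1 / k : ℝ)) atTop (𝓝 1) := by
      have := (tendsto_rpow_div_mul_add 1 1 (-1) (by norm_num)).comp
        (tendsto_atTop_add_const_right atTop 1 tendsto_natCast_atTop_atTop)
      simpa [Function.comp_def] using this
    have hb (k : ℕ) : ∀ r ∈ {r | ∃ A : ℕ → Matrix (Fin 2) (Fin 2) ℝ, (∀ j, A j ∈ mat '' Icc 0 1) ∧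
        r = ‖prod A k‖}, r ≤ (k : ℝ) + 1 := by
      rintro _ ⟨A, hA, rfl⟩
      linarith [(nrm hA k).2, log_le_sub_one_of_pos (by positivity : (0 : ℝ) < k + 1)]
    refine tendsto_of_tendsto_of_tendsto_of_le_of_le tendsto_const_nhds h1 (fun k => ?_) fun k => ?_
    · exact one_le_rpow (le_csSup_of_le ⟨_, hb k⟩ ⟨_, h0, rfl⟩ (nrm h0 k).1) (by positivity)
    · exact rpow_le_rpow (sSup_nonneg (by rintro _ ⟨A, -, rfl⟩; positivity))
        (csSup_le ⟨_, _, h0, rfl⟩ (hb k)) (by positivity)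
  · rw [div_le_one (by positivity)]; simp
  · rintro ⟨C, hC⟩
    have h1 (k : ℕ) : prod (fun j => mat (1 / (j + 1))) k *ᵥ ![0, 1] = ![log k.factorial / k, 1] := by
      induction k with
      | zero => simp [prod]
      | succ k ih =>
        rw [prod, ← mulVec_mulVec, ih]
        ext i
        fin_cases i
        · have e : (k : ℝ) * (log k.factorial / k) = log k.factorial := by
            rcases k.eq_zero_or_pos with rfl | hk
            · simp
            · field_simp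
          simp only [mat, negMulLog, Nat.factorial_succ, Nat.cast_mul, one_div, log_inv]
          rw [log_mul (by positivity) (by positivity), ← e]
          simp [dotProduct]
          rw [e]
          field_simp
          linear_combination e
        · simp [mat]
    obtain ⟨k, hk, hk0⟩ := (((tendsto_log_atTop.comp tendsto_natCast_atTop_atTop).eventually_gt_atTop
      (C + 1)).and (eventually_gt_atTop 0)).exists
    have h2 := (norm_le_pi_norm _ 0).trans (hC k)
    have h3 : (0 : ℝ) < k := by exact_mod_cast hk0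
    have h4 := log_le_log (by positivity) (pow_div_factorial_le_exp (k : ℝ) h3.le k)
    rw [log_exp, log_div (by positivity) (by positivity), log_pow] at h4
    rw [h1] at h2
    have h5 : log k.factorial / k ≤ C := (le_abs_self _).trans h2
    rw [div_le_iff₀ h3] at h5
    simp only [Function.comp] at hk
    nlinarith
  · refine IsBigO.trans (IsBigO.of_bound ‖x‖ (Eventually.of_forall fun k => ?_)) (lg hα)
    rw [norm_norm, mul_comm]
    exact (linfty_opNorm_mulVec _ _).trans (mul_le_mul_of_nonneg_right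
      ((nrm hA k).2.trans (le_abs_self _)) (norm_nonneg _))

end Pool.Agent.Results.MP_653f52_an.LogGrowth
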